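import Mathlib

/-!
Abstract lemmas on complex irreducible representations of a finite group `G = F X` with a block
projection `B`, and the block projections attached to the characters of a finite abelian group
acting on a vector space.
-/

namespace Pool.Agent.H51d

open Representation

section Schur

variable {G : Type} [Group G] {W : Type} [AddCommGroup W] [Module ℂ W] [FiniteDimensional ℂ W]
  (ρ : Representation ℂ G W)

/-- Schur's lemma. -/
theorem schur (hirr : ρ.IsIrreducible) (T : W →ₗ[ℂ] W) (h : ∀ g, T * ρ g = ρ g * T) :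
    ∃ μ : ℂ, T = μ • (1 : W →ₗ[ℂ] W) := by
  haveI := hirr
  let f : IntertwiningMap ρ ρ := ⟨T, fun g => h g⟩
  obtain ⟨μ, hμ⟩ := (IsIrreducible.algebraMap_intertwiningMap_bijective_of_isAlgClosed
    (ρ := ρ)).2 f
  refine ⟨μ, ?_⟩
  ext w
  have := congrArg (fun φ : IntertwiningMap ρ ρ => φ w) hμ
  exact this.symm.trans (by simp)

theorem nontrivial_of_irreducible (hirr : ρ.IsIrreducible) : Nontrivial W := by
  haveI := hirr
  by_contra hW
  rw [not_nontrivial_iff_subsingleton] at hW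
  have : (⊥ : Subrepresentation ρ) = ⊤ := by
    apply Subrepresentation.toSubmodule_injective
    exact Subsingleton.elim _ _
  exact bot_ne_top this

end Schur

section Induced

variable {G X : Type} [Group G] [Group X] [Fintype X] [DecidableEq X] {W : Type}
  [AddCommGroup W] [Module ℂ W] [FiniteDimensional ℂ W]
  (ρ : Representation ℂ G W)

/-- A block projection: `F` is a normal subgroup of `G = F ι(X)`, and `B` is a nonzero idempotent
commuting with `F` such that the translates of `B` under `X` are orthogonal. -/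
structure Block (F : Subgroup G) (ι : X →* G) (B : W →ₗ[ℂ] W) : Prop where
  normal : F.Normal
  gen : ∀ g : G, ∃ f ∈ F, ∃ x, g = f * ι x
  idem : B * B = B
  ne : B ≠ 0
  comm : ∀ f ∈ F, ρ f * B = B * ρ f
  orth : ∀ x, x ≠ 1 → B * ρ (ι x) * B = 0

variable {ρ} {F : Subgroup G} {ι : X →* G} {B : W →ₗ[ℂ] W}

theorem Block.avg_comm (hB : Block ρ F ι B) (C : W →ₗ[ℂ] W) (hC : ∀ f ∈ F, ρ f * C = C * ρ f)
    (g : G) :
    (∑ x, ρ (ι x) * C * ρ (ι x)⁻¹) * ρ g = ρ g * ∑ x, ρ (ι x) * C * ρ (ι x)⁻¹ := by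
  obtain ⟨f, hf, x₀, rfl⟩ := hB.gen g
  have h1 : ∀ f ∈ F, (∑ x, ρ (ι x) * C * ρ (ι x)⁻¹) * ρ f =
      ρ f * ∑ x, ρ (ι x) * C * ρ (ι x)⁻¹ := by
    intro f hf
    rw [Finset.sum_mul, Finset.mul_sum]
    refine Finset.sum_congr rfl fun x _ => ?_
    have hf' : (ι x)⁻¹ * f * ι x ∈ F := by
      have := hB.normal.conj_mem f hf (ι x)⁻¹
      simpa using this
    calc ρ (ι x) * C * ρ (ι x)⁻¹ * ρ f = ρ (ι x) * (C * ρ ((ι x)⁻¹ * f * ι x)) * ρ (ι x)⁻¹ := by
          simp only [mul_assoc, ← map_mul, mul_inv_cancel, mul_one]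
      _ = ρ (ι x) * (ρ ((ι x)⁻¹ * f * ι x) * C) * ρ (ι x)⁻¹ := by rw [hC _ hf']
      _ = ρ f * (ρ (ι x) * C * ρ (ι x)⁻¹) := by
          simp only [← mul_assoc, ← map_mul, mul_inv_cancel, one_mul]
  have h2 : (∑ x, ρ (ι x) * C * ρ (ι x)⁻¹) * ρ (ι x₀) =
      ρ (ι x₀) * ∑ x, ρ (ι x) * C * ρ (ι x)⁻¹ := by
    rw [Finset.sum_mul, Finset.mul_sum]
    rw [← Equiv.sum_comp (Equiv.mulLeft x₀)]
    refine Finset.sum_congr rfl fun x _ => ?_
    simp only [Equiv.coe_mulLeft, map_mul, mul_inv_rev, mul_assoc]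
    rw [← map_mul ρ (ι x₀)⁻¹, inv_mul_cancel, map_one, mul_one]
  rw [map_mul, ← mul_assoc, h1 f hf, mul_assoc, h2, mul_assoc]

/-- An operator commuting with `F` and supported on the block is a scalar on the block. -/
theorem Block.scalar (hB : Block ρ F ι B) (hirr : ρ.IsIrreducible) (C : W →ₗ[ℂ] W)
    (hC : ∀ f ∈ F, ρ f * C = C * ρ f) (hCB : C * B = C) : ∃ μ : ℂ, C = μ • B := by
  obtain ⟨μ, hμ⟩ := schur ρ hirr _ (hB.avg_comm C hC)
  refine ⟨μ, ?_⟩
  have h := congrArg (fun T : W →ₗ[ℂ] W => T * B) hμ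
  simp only [Finset.sum_mul, smul_mul_assoc, one_mul] at h
  rw [← h, Finset.sum_eq_single (1 : X)]
  · simp [hCB]
  · intro x _ hx
    have h0 := hB.orth x⁻¹ (by simpa using hx)
    rw [map_inv] at h0
    have h2 : ρ (ι x) * C * ρ (ι x)⁻¹ * B = ρ (ι x) * C * (B * ρ (ι x)⁻¹ * B) := by
      conv_lhs => rw [← hCB]
      simp only [mul_assoc]
    rw [h2, h0, mul_zero]
  · simp

theorem Block.sum_eq_one (hB : Block ρ F ι B) (hirr : ρ.IsIrreducible) :
    ∑ x, ρ (ι x) * B * ρ (ι x)⁻¹ = 1 := by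
  obtain ⟨μ, hμ⟩ := schur ρ hirr _ (hB.avg_comm B hB.comm)
  have h := congrArg (fun T : W →ₗ[ℂ] W => T * B) hμ
  simp only [Finset.sum_mul, smul_mul_assoc, one_mul] at h
  rw [Finset.sum_eq_single (1 : X)] at h
  · simp only [map_one, inv_one, one_mul, mul_one, hB.idem] at h
    have : μ = 1 := by
      have h3 : (μ - 1) • B = 0 := by rw [sub_smul, one_smul, ← h, sub_self]
      rcases smul_eq_zero.1 h3 with h4 | h4
      · linear_combination h4
      · exact absurd h4 hB.ne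
    rw [hμ, this, one_smul]
  · intro x _ hx
    have h0 := hB.orth x⁻¹ (by simpa using hx)
    rw [map_inv] at h0
    rw [mul_assoc (ρ (ι x)), mul_assoc (ρ (ι x)), h0, mul_zero]
  · simp

/-- The formula for the character of an induced representation. -/
theorem Block.character_eq (hB : Block ρ F ι B) (hirr : ρ.IsIrreducible) (g : G) :
    ρ.character g = ∑ x, LinearMap.trace ℂ W (ρ ((ι x)⁻¹ * g * ι x) * B) := by
  have h : ρ g = ∑ x, ρ g * (ρ (ι x) * B * ρ (ι x)⁻¹) := by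
    rw [← Finset.mul_sum, hB.sum_eq_one hirr, mul_one]
  rw [character, h, map_sum]
  refine Finset.sum_congr rfl fun x _ => ?_
  rw [← mul_assoc, LinearMap.trace_mul_comm]
  simp only [← mul_assoc, ← map_mul]

theorem trace_idem_ne_zero {B : W →ₗ[ℂ] W} (h : B * B = B) (h0 : B ≠ 0) :
    LinearMap.trace ℂ W B ≠ 0 := by
  have hp : LinearMap.IsProj (LinearMap.range B) B := by
    refine ⟨fun x => LinearMap.mem_range_self _ _, ?_⟩
    rintro _ ⟨x, rfl⟩
    exact LinearMap.congr_fun h x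
  rw [hp.trace]
  intro h1
  have h2 : Module.finrank ℂ (LinearMap.range B) = 0 := by exact_mod_cast h1
  rw [Submodule.finrank_eq_zero, LinearMap.range_eq_bot] at h2
  exact h0 h2

end Induced

section Chars

variable {A : Type} [AddCommGroup A] [Fintype A] {W : Type} [AddCommGroup W] [Module ℂ W]

/-- The projection attached to a character. -/
noncomputable def proj (τ : A → (W →ₗ[ℂ] W)) (κ : AddChar A ℂ) : W →ₗ[ℂ] W :=
  (Fintype.card A : ℂ)⁻¹ • ∑ a, κ (-a) • τ a

theorem mul_proj {τ : A → (W →ₗ[ℂ] W)} (hadd : ∀ a b, τ (a + b) = τ a * τ b)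
    (κ : AddChar A ℂ) (b : A) : τ b * proj τ κ = κ b • proj τ κ := by
  unfold proj
  rw [mul_smul_comm, smul_comm (κ b) ((Fintype.card A : ℂ)⁻¹)]
  congr 1
  rw [Finset.mul_sum, Finset.smul_sum]
  rw [← Equiv.sum_comp (Equiv.addLeft b) (fun a => κ b • κ (-a) • τ a)]
  refine Finset.sum_congr rfl fun a _ => ?_
  simp only [Equiv.coe_addLeft]
  rw [mul_smul_comm, ← hadd, smul_smul, ← AddChar.map_add_eq_mul]
  congr 2
  abel

theorem proj_mul {τ : A → (W →ₗ[ℂ] W)} (hadd : ∀ a b, τ (a + b) = τ a * τ b)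
    (κ : AddChar A ℂ) (b : A) : proj τ κ * τ b = κ b • proj τ κ := by
  unfold proj
  rw [smul_mul_assoc, smul_comm (κ b) ((Fintype.card A : ℂ)⁻¹)]
  congr 1
  rw [Finset.sum_mul, Finset.smul_sum]
  rw [← Equiv.sum_comp (Equiv.addRight b) (fun a => κ b • κ (-a) • τ a)]
  refine Finset.sum_congr rfl fun a _ => ?_
  simp only [Equiv.coe_addRight]
  rw [smul_mul_assoc, ← hadd, smul_smul, ← AddChar.map_add_eq_mul]
  congr 2
  abel

theorem proj_idem {τ : A → (W →ₗ[ℂ] W)} (hadd : ∀ a b, τ (a + b) = τ a * τ b)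
    (κ : AddChar A ℂ) : proj τ κ * proj τ κ = proj τ κ := by
  conv_lhs => enter [1]; unfold proj
  rw [smul_mul_assoc, Finset.sum_mul]
  have : ∀ a ∈ (Finset.univ : Finset A), κ (-a) • τ a * proj τ κ = proj τ κ := by
    intro a _
    rw [smul_mul_assoc, mul_proj hadd, smul_smul, ← AddChar.map_add_eq_mul, neg_add_cancel,
      AddChar.map_zero_eq_one, one_smul]
  rw [Finset.sum_congr rfl this, Finset.sum_const, Finset.card_univ, ← Nat.cast_smul_eq_nsmul ℂ,
    smul_smul, inv_mul_cancel₀ (by simp), one_smul]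

theorem sum_proj {τ : A → (W →ₗ[ℂ] W)} (h0 : τ 0 = 1) : ∑ κ : AddChar A ℂ, proj τ κ = 1 := by
  classical
  unfold proj
  rw [← Finset.smul_sum, Finset.sum_comm]
  simp only [← Finset.sum_smul, AddChar.sum_apply_eq_ite, neg_eq_zero]
  simp [h0]

/-- Either some character outside of `S` occurs, or all the characters that occur are in `S`. -/
theorem exists_proj_ne {τ : A → (W →ₗ[ℂ] W)} (h0 : τ 0 = 1)
    (hadd : ∀ a b, τ (a + b) = τ a * τ b) (a : A) (ha : τ a ≠ 1) :
    ∃ κ : AddChar A ℂ, proj τ κ ≠ 0 ∧ κ a ≠ 1 := by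
  classical
  by_contra hcon
  push Not at hcon
  apply ha
  calc τ a = τ a * ∑ κ : AddChar A ℂ, proj τ κ := by rw [sum_proj h0, mul_one]
    _ = ∑ κ : AddChar A ℂ, proj τ κ := by
        rw [Finset.mul_sum]
        refine Finset.sum_congr rfl fun κ _ => ?_
        rw [mul_proj hadd]
        by_cases h : proj τ κ = 0
        · rw [h, smul_zero]
        · rw [hcon κ h, one_smul]
    _ = 1 := sum_proj h0

end Chars

end Pool.Agent.H51d
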