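import Mathlib

/-!
A sum of fewer than `29` signed `29`-th roots of unity, odd in number, does not vanish.
-/

namespace Pool.Agent.H51d

open Polynomial

theorem sum_signed_roots_ne_zero {I : Type} [Fintype I] (hodd : Odd (Fintype.card I))
    (hlt : Fintype.card I < 29) (ε : I → ℤ) (hε : ∀ i, ε i = 1 ∨ ε i = -1) (ω : I → ℂ)
    (hω : ∀ i, ω i ^ 29 = 1) : ∑ i, (ε i : ℂ) * ω i ≠ 0 := by
  intro hsum
  have hζ := Complex.isPrimitiveRoot_exp 29 (by norm_num)
  set ζ := Complex.exp (2 * Real.pi * Complex.I / (29 : ℕ)) with hζdef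
  have hk : ∀ i, ∃ k : ℕ, ζ ^ k = ω i := by
    intro i
    obtain ⟨k, _, hk⟩ := hζ.eq_pow_of_pow_eq_one (hω i)
    exact ⟨k, hk⟩
  choose k hk using hk
  let P : ℤ[X] := ∑ i, C (ε i) * X ^ k i
  have hP : aeval ζ P = 0 := by
    rw [← hsum]
    simp only [P, map_sum, map_mul, map_pow, aeval_X, aeval_C, hk]
    rfl
  have hdvd : cyclotomic 29 ℤ ∣ P := by
    rw [cyclotomic_eq_minpoly hζ (by norm_num)]
    exact minpoly.isIntegrallyClosed_dvd (hζ.isIntegral (by norm_num)) hP
  obtain ⟨R, hR⟩ := hdvd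
  have h1 : P.eval 1 = 29 * R.eval 1 := by
    rw [hR, eval_mul]
    haveI : Fact (Nat.Prime 29) := ⟨by norm_num⟩
    rw [eval_one_cyclotomic_prime]
    norm_num
  have h2 : P.eval 1 = ∑ i, ε i := by
    simp [P, eval_finset_sum]
  have h3 : Odd (∑ i, ε i) := by
    have he : ∑ i, ε i = ∑ i, (ε i - 1) + Fintype.card I := by
      rw [Finset.sum_sub_distrib]
      simp
    have h2 : (2 : ℤ) ∣ ∑ i, (ε i - 1) := by
      refine Finset.dvd_sum fun i _ => ?_
      rcases hε i with h | h <;> rw [h] <;> decide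
    rw [he]
    refine Even.add_odd (even_iff_two_dvd.2 h2) ?_
    exact_mod_cast hodd
  have h4 : |∑ i, ε i| ≤ Fintype.card I := by
    calc |∑ i, ε i| ≤ ∑ i, |ε i| := Finset.abs_sum_le_sum_abs _ _
      _ = ∑ _i : I, 1 := by
          refine Finset.sum_congr rfl fun i _ => ?_
          rcases hε i with h | h <;> rw [h] <;> rfl
      _ = Fintype.card I := by simp
  rw [h1.symm.trans h2 |>.symm] at h3 h4
  have h5 : R.eval 1 = 0 := by
    by_contra hne
    have : 1 ≤ |R.eval 1| := Int.one_le_abs hne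
    rw [abs_mul] at h4
    have h29 : |(29 : ℤ)| = 29 := rfl
    rw [h29] at h4
    omega
  rw [h5] at h3
  simp at h3

end Pool.Agent.H51d
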