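import Mathlib

/-!
A counting lemma for additive characters of the field with eight elements.
-/

namespace Pool.Agent.H51d

section

variable {K : Type} [Field K] [Fintype K] [DecidableEq K] [CharP K 2]

theorem sum_units_char (hK : Fintype.card K = 8) (lam : AddChar K ℂ) (hl : lam ≠ 0) (s : K)
    (hs : s ≠ 0) : ∑ u : Kˣ, lam ((u : K) ^ 3 * s) = -1 := by
  classical
  have hcard : Nat.card Kˣ = 7 := by
    rw [Nat.card_eq_fintype_card, Fintype.card_units, hK]
  have hcop : (Nat.card Kˣ).Coprime 3 := by rw [hcard]; norm_num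
  have h1 : ∑ u : Kˣ, lam ((u : K) ^ 3 * s) = ∑ u : Kˣ, lam ((u : K)) := by
    rw [← Equiv.sum_comp ((powCoprime hcop).trans (Equiv.mulRight (Units.mk0 s hs)))
      (fun u : Kˣ => lam (u : K))]
    refine Finset.sum_congr rfl fun u _ => ?_
    simp
  have h2 : ∑ x : K, lam x = lam 0 + ∑ u : Kˣ, lam (u : K) := by
    rw [← Finset.add_sum_erase _ _ (Finset.mem_univ (0 : K))]
    congr 1
    symm
    refine Finset.sum_bij (fun (u : Kˣ) _ => (u : K)) (by simp) (by
      intro a _ b _ h; exact Units.ext h) ?_ (by simp)
    intro b hb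
    have hb' : b ≠ 0 := by simpa using hb
    exact ⟨Units.mk0 b hb', by simp⟩
  have h3 : ∑ x : K, lam x = 0 := by
    rw [AddChar.sum_eq_ite, if_neg hl]
  rw [h1]
  rw [h3, AddChar.map_zero_eq_one] at h2
  linear_combination -h2

/-- The additive character `b ↦ lam (u b² + u² b)`. -/
def fchar (lam : AddChar K ℂ) (u : Kˣ) : AddChar K ℂ where
  toFun b := lam (u * b ^ 2 + (u : K) ^ 2 * b)
  map_zero_eq_one' := by simp
  map_add_eq_mul' a b := by
    rw [← AddChar.map_add_eq_mul]
    congr 1
    rw [add_pow_char a b 2]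
    ring

theorem fchar_apply (lam : AddChar K ℂ) (u : Kˣ) (b : K) :
    fchar lam u b = lam (u * b ^ 2 + (u : K) ^ 2 * b) := rfl

theorem sum_fchar (hK : Fintype.card K = 8) (lam : AddChar K ℂ) (hl : lam ≠ 0) :
    ∑ u : Kˣ, ∑ b : K, fchar lam u b = 8 := by
  classical
  have h1 : ∀ u : Kˣ, ∑ b : K, fchar lam u b = ∑ t : K, lam ((u : K) ^ 3 * (t ^ 2 + t)) := by
    intro u
    rw [← Equiv.sum_comp (Units.mulLeft u)]
    refine Finset.sum_congr rfl fun t _ => ?_
    rw [fchar_apply]
    congr 1
    simp only [Units.mulLeft_apply]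
    ring
  simp only [h1]
  rw [Finset.sum_comm]
  have h2 : ∀ t : K, ∑ u : Kˣ, lam ((u : K) ^ 3 * (t ^ 2 + t)) =
      if t ∈ ({0, 1} : Finset K) then 7 else -1 := by
    intro t
    split_ifs with h
    · have ht : t ^ 2 + t = 0 := by
        simp only [Finset.mem_insert, Finset.mem_singleton] at h
        rcases h with rfl | rfl
        · simp
        · have := CharP.cast_eq_zero K 2
          push_cast at this
          linear_combination this
      simp only [ht, mul_zero, AddChar.map_zero_eq_one, Finset.sum_const, Finset.card_univ,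
        Fintype.card_units, hK]
      norm_num
    · apply sum_units_char hK lam hl
      intro h0
      apply h
      have h3 : t * (t + 1) = 0 := by linear_combination h0
      have h4 := CharP.cast_eq_zero K 2
      push_cast at h4
      rcases mul_eq_zero.1 h3 with h5 | h5
      · simp [h5]
      · have : t = 1 := by linear_combination h5 - h4
        simp [this]
  simp only [h2]
  rw [Finset.sum_ite]
  simp only [Finset.sum_const, Finset.filter_mem_eq_inter, Finset.univ_inter]
  have h5 : ({0, 1} : Finset K).card = 2 := Finset.card_pair zero_ne_one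
  have h6 : (Finset.filter (fun x : K => x ∉ ({0, 1} : Finset K)) Finset.univ).card = 6 := by
    have := Finset.card_compl ({0, 1} : Finset K)
    rw [h5, hK] at this
    have h7 : Finset.filter (fun x : K => x ∉ ({0, 1} : Finset K)) Finset.univ =
        ({0, 1} : Finset K)ᶜ := by
      ext x
      simp
    rw [h7, this]
  rw [h5, h6]
  norm_num

theorem exists_unique_unit (hK : Fintype.card K = 8) (lam : AddChar K ℂ) (hl : lam ≠ 0) :
    ∃ u : Kˣ, fchar lam u = 0 ∧ ∀ v, v ≠ u → fchar lam v ≠ 0 := by
  classical
  have h := sum_fchar hK lam hl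
  simp only [AddChar.sum_eq_ite] at h
  rw [hK, ← Finset.sum_filter, Finset.sum_const] at h
  have h1 : (Finset.filter (fun u : Kˣ => fchar lam u = 0) Finset.univ).card = 1 := by
    have h2 : ((Finset.filter (fun u : Kˣ => fchar lam u = 0) Finset.univ).card : ℂ) * 8 = 8 := by
      simpa using h
    have h3 : ((Finset.filter (fun u : Kˣ => fchar lam u = 0) Finset.univ).card : ℂ) = 1 := by
      have : (8 : ℂ) ≠ 0 := by norm_num
      field_simp at h2
      exact h2
    exact_mod_cast h3
  obtain ⟨u, hu⟩ := Finset.card_eq_one.1 h1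
  refine ⟨u, ?_, ?_⟩
  · have : u ∈ Finset.filter (fun u : Kˣ => fchar lam u = 0) Finset.univ := by rw [hu]; simp
    simpa using this
  · intro v hv h0
    have : v ∈ Finset.filter (fun u : Kˣ => fchar lam u = 0) Finset.univ := by simp [h0]
    rw [hu] at this
    exact hv (by simpa using this)

end

end Pool.Agent.H51d
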