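import Mathlib

/-!
Complex irreducible characters, the numbers `z(χ)` and `m(G)`, and the Fitting subgroup.
-/

namespace Pool.Agent.H51d

section

variable (G : Type) [Group G]

/-- `χ` is a complex irreducible character of `G`: it is the character of an irreducible
representation of `G` on a finite-dimensional complex vector space. -/
def IsIrrChar (χ : G → ℂ) : Prop :=
  ∃ (V : Type) (_ : AddCommGroup V) (_ : Module ℂ V) (_ : FiniteDimensional ℂ V)
    (ρ : Representation ℂ G V), ρ.IsIrreducible ∧ χ = ρ.character

/-- `z(χ)`, the number of conjugacy classes of `G` on which `χ` takes the value `0`. -/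
noncomputable def zeroCount (χ : G → ℂ) : ℕ :=
  Set.ncard {C : ConjClasses G | ∀ g ∈ C.carrier, χ g = 0}

/-- `m(G)`, the maximum of `z(χ)` over the complex irreducible characters `χ` of `G`. -/
noncomputable def maxZeros : ℕ := sSup {k : ℕ | ∃ χ : G → ℂ, IsIrrChar G χ ∧ k = zeroCount G χ}

/-- The Fitting subgroup of `G`, generated by all the nilpotent normal subgroups of `G`. -/
def fitting : Subgroup G := sSup {N : Subgroup G | N.Normal ∧ Group.IsNilpotent N}

end

/-- For a finite group the supremum in the definition of `m(G)` is over a bounded set. -/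
theorem bddAbove_zeros (G : Type) [Group G] [Finite G] :
    BddAbove {k : ℕ | ∃ χ : G → ℂ, IsIrrChar G χ ∧ k = zeroCount G χ} := by
  refine ⟨Nat.card (ConjClasses G), ?_⟩
  rintro k ⟨χ, _, rfl⟩
  unfold zeroCount
  rw [← Set.ncard_univ]
  exact Set.ncard_le_ncard (Set.subset_univ _) Set.finite_univ

theorem zeroCount_le_maxZeros (G : Type) [Group G] [Finite G] (χ : G → ℂ) (h : IsIrrChar G χ) :
    zeroCount G χ ≤ maxZeros G :=
  le_csSup (bddAbove_zeros G) ⟨χ, h, rfl⟩

theorem maxZeros_le (G : Type) [Group G] (k : ℕ) (h : ∀ χ, IsIrrChar G χ → zeroCount G χ ≤ k) :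
    maxZeros G ≤ k := by
  unfold maxZeros
  apply csSup_le'
  rintro j ⟨χ, hχ, rfl⟩
  exact h χ hχ

end Pool.Agent.H51d
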