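import Mathlib

/-!
The group `G = (P × Q) ⋊ Kˣ`, where `K` is a field of characteristic two (eight elements later),
`P` is `K × K` with `(a, z) (b, w) = (a + b, z + w + a b²)`, and `Q = (ℤ/29)^n`.
-/

namespace Pool.Agent.H51d

/-- The underlying set of the group. -/
@[ext] structure GG {K : Type} [Field K] (χ : Kˣ →* (ZMod 29)ˣ) (n : ℕ) : Type where
  y : Kˣ
  a : K
  z : K
  c : Fin n → ZMod 29

namespace GG

variable {K : Type} [Field K] {χ : Kˣ →* (ZMod 29)ˣ} {n : ℕ}

instance : Mul (GG χ n) where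
  mul g h :=
    { y := g.y * h.y
      a := g.a + g.y * h.a
      z := g.z + (g.y : K) ^ 3 * h.z + g.a * (g.y * h.a) ^ 2
      c := g.c + (χ g.y : ZMod 29) • h.c }

instance : One (GG χ n) where
  one :=
    { y := 1
      a := 0
      z := 0
      c := 0 }

instance : Inv (GG χ n) where
  inv g :=
    { y := g.y⁻¹
      a := -((g.y⁻¹ : Kˣ) * g.a)
      z := -((g.y⁻¹ : Kˣ) : K) ^ 3 * (g.z - g.a ^ 3)
      c := -(((χ g.y)⁻¹ : (ZMod 29)ˣ) : ZMod 29) • g.c }

@[simp] theorem mul_y (g h : GG χ n) : (g * h).y = g.y * h.y := rfl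
@[simp] theorem mul_a (g h : GG χ n) : (g * h).a = g.a + g.y * h.a := rfl
@[simp] theorem mul_z (g h : GG χ n) :
    (g * h).z = g.z + (g.y : K) ^ 3 * h.z + g.a * (g.y * h.a) ^ 2 := rfl
@[simp] theorem mul_c (g h : GG χ n) : (g * h).c = g.c + (χ g.y : ZMod 29) • h.c := rfl
@[simp] theorem one_y : (1 : GG χ n).y = 1 := rfl
@[simp] theorem one_a : (1 : GG χ n).a = 0 := rfl
@[simp] theorem one_z : (1 : GG χ n).z = 0 := rfl
@[simp] theorem one_c : (1 : GG χ n).c = 0 := rfl
@[simp] theorem inv_y (g : GG χ n) : (g⁻¹).y = g.y⁻¹ := rfl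
theorem inv_a (g : GG χ n) : (g⁻¹).a = -((g.y⁻¹ : Kˣ) * g.a) := rfl
theorem inv_z (g : GG χ n) : (g⁻¹).z = -((g.y⁻¹ : Kˣ) : K) ^ 3 * (g.z - g.a ^ 3) := rfl
theorem inv_c (g : GG χ n) : (g⁻¹).c = -(((χ g.y)⁻¹ : (ZMod 29)ˣ) : ZMod 29) • g.c := rfl

theorem two_eq_zero [CharP K 2] : (2 : K) = 0 := by
  have := CharP.cast_eq_zero K 2
  exact_mod_cast this

instance [CharP K 2] : Group (GG χ n) :=
  Group.ofLeftAxioms
    (by
      intro g h k
      have h2 : (2 : K) = 0 := two_eq_zero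
      ext1
      · exact mul_assoc _ _ _
      · simp only [mul_a, mul_y, Units.val_mul]
        ring
      · simp only [mul_a, mul_y, mul_z, Units.val_mul]
        linear_combination (-(g.a * (g.y : K) ^ 2 * h.a * h.y * k.a)) * h2
      · funext i
        simp only [mul_c, mul_y, map_mul, Units.val_mul, Pi.add_apply, Pi.smul_apply,
          smul_eq_mul]
        ring)
    (by
      intro g
      ext1 <;> simp)
    (by
      intro g
      have h2 : (2 : K) = 0 := two_eq_zero
      have hy : ((g.y⁻¹ : Kˣ) : K) * g.y = 1 := by simp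
      ext1
      · simp
      · simp only [mul_a, inv_a, inv_y, one_a]
        ring
      · simp only [mul_z, inv_z, inv_y, inv_a, one_z]
        ring
      · funext i
        simp [inv_c])


/-- The projection to the complement. -/
def prY [CharP K 2] : GG χ n →* Kˣ where
  toFun g := g.y
  map_one' := rfl
  map_mul' _ _ := rfl

/-- The subgroup `F = P × Q`. -/
def FF [CharP K 2] (χ : Kˣ →* (ZMod 29)ˣ) (n : ℕ) : Subgroup (GG χ n) := (prY).ker

theorem mem_FF [CharP K 2] {g : GG χ n} : g ∈ FF χ n ↔ g.y = 1 := Iff.rfl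

instance [CharP K 2] : (FF χ n).Normal := by unfold FF; infer_instance

/-- The embedding of the complement. -/
def iota [CharP K 2] (χ : Kˣ →* (ZMod 29)ˣ) (n : ℕ) : Kˣ →* GG χ n where
  toFun y := ⟨y, 0, 0, 0⟩
  map_one' := rfl
  map_mul' y y' := by ext1 <;> simp

/-- The elements of `F`. -/
def el (χ : Kˣ →* (ZMod 29)ˣ) {n : ℕ} (a z : K) (c : Fin n → ZMod 29) : GG χ n := ⟨1, a, z, c⟩

@[simp] theorem iota_y [CharP K 2] (y : Kˣ) : (iota χ n y).y = y := rfl
@[simp] theorem iota_a [CharP K 2] (y : Kˣ) : (iota χ n y).a = 0 := rfl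
@[simp] theorem iota_z [CharP K 2] (y : Kˣ) : (iota χ n y).z = 0 := rfl
@[simp] theorem iota_c [CharP K 2] (y : Kˣ) : (iota χ n y).c = 0 := rfl
@[simp] theorem el_y (a z : K) (c : Fin n → ZMod 29) : (el χ a z c).y = 1 := rfl
@[simp] theorem el_a (a z : K) (c : Fin n → ZMod 29) : (el χ a z c).a = a := rfl
@[simp] theorem el_z (a z : K) (c : Fin n → ZMod 29) : (el χ a z c).z = z := rfl
@[simp] theorem el_c (a z : K) (c : Fin n → ZMod 29) : (el χ a z c).c = c := rfl

theorem el_mul (a z a' z' : K) (c c' : Fin n → ZMod 29) :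
    el χ a z c * el χ a' z' c' = el χ (a + a') (z + z' + a * a' ^ 2) (c + c') := by
  ext1 <;> simp

theorem eq_el_of_mem [CharP K 2] {g : GG χ n} (hg : g ∈ FF χ n) : g = el χ g.a g.z g.c := by
  ext1
  · exact hg
  all_goals rfl

theorem el_mem [CharP K 2] (a z : K) (c : Fin n → ZMod 29) : el χ a z c ∈ FF χ n := rfl

theorem eq_mul_iota [CharP K 2] (g : GG χ n) : g = el χ g.a g.z g.c * iota χ n g.y := by
  ext1 <;> simp

/-- Conjugation of `F` by the complement. -/
theorem conj_iota [CharP K 2] (y : Kˣ) (a z : K) (c : Fin n → ZMod 29) :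
    iota χ n y * el χ a z c * (iota χ n y)⁻¹ =
      el χ (y * a) ((y : K) ^ 3 * z) ((χ y : ZMod 29) • c) := by
  rw [mul_inv_eq_iff_eq_mul]
  ext1 <;> simp

/-- Elements outside of `F` are conjugate to elements of the complement. -/
theorem conj_of_y_ne [CharP K 2] (h3 : ∀ y : Kˣ, y ^ 3 = 1 → y = 1)
    (hχ : ∀ y : Kˣ, χ y = 1 → y = 1) (g : GG χ n) (hg : g.y ≠ 1) : IsConj (iota χ n g.y) g := by
  rw [isConj_iff]
  have h1 : (1 - (g.y : K)) ≠ 0 := by
    intro h
    apply hg
    ext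
    push_cast
    linear_combination -h
  have h2 : (1 - (g.y : K) ^ 3) ≠ 0 := by
    intro h
    apply hg
    apply h3
    ext
    push_cast
    linear_combination -h
  have h4 : (1 - (χ g.y : ZMod 29)) ≠ 0 := by
    intro h
    apply hg
    apply hχ
    ext
    push_cast
    linear_combination -h
  haveI : Fact (Nat.Prime 29) := ⟨by norm_num⟩
  refine ⟨el χ (g.a / (1 - g.y)) ((g.z + g.a * (g.y * (g.a / (1 - g.y))) ^ 2) / (1 - (g.y : K) ^ 3))
    ((1 - (χ g.y : ZMod 29))⁻¹ • g.c), ?_⟩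
  rw [mul_inv_eq_iff_eq_mul]
  ext1
  · simp
  · simp only [mul_a, el_a, el_y, iota_a]
    field_simp
    ring
  · simp only [mul_z, mul_a, el_z, el_a, el_y, iota_z, iota_a]
    field_simp
    ring
  · simp only [mul_c, el_c, el_y, iota_c, smul_zero, add_zero, map_one]
    funext i
    simp only [Pi.add_apply, Pi.smul_apply, smul_eq_mul]
    field_simp
    ring

end GG

end Pool.Agent.H51d
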