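import Pool.Agent.H51d.Abs
import Pool.Agent.H51d.Arith
import Pool.Agent.H51d.Count
import Pool.Agent.H51d.Grp

/-!
Irreducible characters of `G` do not vanish on `F = P × Q`.
-/

namespace Pool.Agent.H51d

open Representation GG

section Sums

variable {K : Type} [Field K] [Fintype K] [DecidableEq K] [CharP K 2]
  {χ : Kˣ →* (ZMod 29)ˣ} {n : ℕ}

/-- The action of `y` on `K × Q` with weight `k` on `K`. -/
def act (χ : Kˣ →* (ZMod 29)ˣ) (k : ℕ) (y : Kˣ) (p : K × (Fin n → ZMod 29)) :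
    K × (Fin n → ZMod 29) := ((y : K) ^ k * p.1, (χ y : ZMod 29) • p.2)

theorem act_moves (hχ : ∀ y : Kˣ, χ y = 1 → y = 1) (k : ℕ) (hk : ∀ y : Kˣ, y ^ k = 1 → y = 1)
    (κ : AddChar (K × (Fin n → ZMod 29)) ℂ) (hκ : κ ≠ 0) (y : Kˣ) (hy : y ≠ 1) :
    ∃ p, κ (act χ k y p) ≠ κ p := by
  haveI : Fact (Nat.Prime 29) := ⟨by norm_num⟩
  by_contra hcon
  push Not at hcon
  apply hκ
  ext ⟨z, c⟩
  have h1 : ((y : K) ^ k - 1) ≠ 0 := by
    intro h
    apply hy
    apply hk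
    ext
    push_cast
    linear_combination h
  have h2 : ((χ y : ZMod 29) - 1) ≠ 0 := by
    intro h
    apply hy
    apply hχ
    ext
    push_cast
    linear_combination h
  have h3 := hcon (((y : K) ^ k - 1)⁻¹ * z, ((χ y : ZMod 29) - 1)⁻¹ • c)
  have h4 : act χ k y (((y : K) ^ k - 1)⁻¹ * z, ((χ y : ZMod 29) - 1)⁻¹ • c) =
      (z, c) + (((y : K) ^ k - 1)⁻¹ * z, ((χ y : ZMod 29) - 1)⁻¹ • c) := by
    unfold act
    ext i
    · simp only [Prod.fst_add]
      field_simp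
      ring
    · simp only [Prod.snd_add, Pi.add_apply, Pi.smul_apply, smul_eq_mul]
      field_simp
      ring
  rw [h4, AddChar.map_add_eq_mul] at h3
  have h5 : κ (((y : K) ^ k - 1)⁻¹ * z, ((χ y : ZMod 29) - 1)⁻¹ • c) ≠ 0 := by
    intro h0
    have := AddChar.map_add_eq_mul κ (((y : K) ^ k - 1)⁻¹ * z, ((χ y : ZMod 29) - 1)⁻¹ • c)
      (-(((y : K) ^ k - 1)⁻¹ * z, ((χ y : ZMod 29) - 1)⁻¹ • c))
    rw [add_neg_cancel, AddChar.map_zero_eq_one, h0, zero_mul] at this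
    exact one_ne_zero this
  have h6 := mul_right_cancel₀ h5 (h3.trans (one_mul _).symm)
  rw [h6]
  rfl

theorem sum_act_ne_zero (hK : Fintype.card K = 8) (k : ℕ)
    (κ : AddChar (K × (Fin n → ZMod 29)) ℂ) (p : K × (Fin n → ZMod 29)) :
    ∑ y : Kˣ, κ (act χ k y p) ≠ 0 := by
  have hcard : Fintype.card Kˣ = 7 := by
    rw [Fintype.card_units, hK]
  have h1 : ∀ z : K, κ (z, 0) = 1 ∨ κ (z, 0) = -1 := by
    intro z
    have h2 : κ (z, 0) * κ (z, 0) = 1 := by
      rw [← AddChar.map_add_eq_mul]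
      have : ((z, 0) + (z, 0) : K × (Fin n → ZMod 29)) = 0 := by
        have h2 : (2 : K) = 0 := two_eq_zero
        ext i
        · simp only [Prod.fst_add, Prod.fst_zero]
          linear_combination z * h2
        · simp
      rw [this, AddChar.map_zero_eq_one]
    exact mul_self_eq_one_iff.1 h2
  have h3 : ∀ z : K, ∃ e : ℤ, (e = 1 ∨ e = -1) ∧ κ (z, 0) = (e : ℂ) := by
    intro z
    rcases h1 z with h | h
    · exact ⟨1, Or.inl rfl, by rw [h]; norm_num⟩
    · exact ⟨-1, Or.inr rfl, by rw [h]; norm_num⟩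
  choose e he1 he2 using h3
  have h4 : ∀ c : Fin n → ZMod 29, κ (0, c) ^ 29 = 1 := by
    intro c
    rw [← AddChar.map_nsmul_eq_pow]
    have : (29 • (0, c) : K × (Fin n → ZMod 29)) = 0 := by
      ext i
      · simp
      · rw [Prod.smul_snd, Pi.smul_apply, Prod.snd_zero, Pi.zero_apply, nsmul_eq_mul]
        have : ((29 : ℕ) : ZMod 29) = 0 := ZMod.natCast_self 29
        rw [this, zero_mul]
    rw [this, AddChar.map_zero_eq_one]
  have h5 := sum_signed_roots_ne_zero (I := Kˣ) (by rw [hcard]; decide) (by rw [hcard]; norm_num)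
    (fun y => e ((y : K) ^ k * p.1)) (fun y => he1 _) (fun y => κ (0, (χ y : ZMod 29) • p.2))
    (fun y => h4 _)
  have h6 : ∀ y : Kˣ, κ (act χ k y p) =
      (e ((y : K) ^ k * p.1) : ℂ) * κ (0, (χ y : ZMod 29) • p.2) := by
    intro y
    rw [← he2, ← AddChar.map_add_eq_mul]
    congr 1
    ext i <;> simp [act]
  simpa only [h6] using h5

end Sums

section Commute

variable {A : Type} [AddCommGroup A] [Fintype A] {W : Type} [AddCommGroup W] [Module ℂ W]

theorem comm_proj {τ : A → (W →ₗ[ℂ] W)} (T : W →ₗ[ℂ] W) (h : ∀ a, T * τ a = τ a * T)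
    (κ : AddChar A ℂ) : T * proj τ κ = proj τ κ * T := by
  unfold proj
  rw [mul_smul_comm, smul_mul_assoc, Finset.mul_sum, Finset.sum_mul]
  congr 1
  refine Finset.sum_congr rfl fun a _ => ?_
  rw [mul_smul_comm, smul_mul_assoc, h]

/-- Orthogonality of a block projection and its translate. -/
theorem proj_orth {τ : A → (W →ₗ[ℂ] W)} (hadd : ∀ a b, τ (a + b) = τ a * τ b) (T : W →ₗ[ℂ] W)
    (κ : AddChar A ℂ) (p q : A) (h : T * τ p = τ q * T) (hpq : κ q ≠ κ p) :
    proj τ κ * T * proj τ κ = 0 := by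
  have h1 : κ p • (proj τ κ * T * proj τ κ) = κ q • (proj τ κ * T * proj τ κ) := by
    calc κ p • (proj τ κ * T * proj τ κ) = proj τ κ * T * (τ p * proj τ κ) := by
          rw [mul_proj hadd, mul_smul_comm]
      _ = proj τ κ * (T * τ p) * proj τ κ := by simp only [mul_assoc]
      _ = (proj τ κ * τ q) * T * proj τ κ := by rw [h]; simp only [mul_assoc]
      _ = κ q • (proj τ κ * T * proj τ κ) := by
          rw [proj_mul hadd, smul_mul_assoc, smul_mul_assoc]
  have h2 : (κ q - κ p) • (proj τ κ * T * proj τ κ) = 0 := by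
    rw [sub_smul, h1, sub_self]
  rcases smul_eq_zero.1 h2 with h3 | h3
  · exact absurd (sub_eq_zero.1 h3) hpq
  · exact h3

end Commute

section Main

variable {K : Type} [Field K] [Fintype K] [DecidableEq K] [CharP K 2]
  {χ : Kˣ →* (ZMod 29)ˣ} {n : ℕ} {W : Type} [AddCommGroup W] [Module ℂ W] [FiniteDimensional ℂ W]
  (ρ : Representation ℂ (GG χ n) W)

/-- A character formula for an additive block. -/
theorem character_of_block (hK : Fintype.card K = 8) (hirr : ρ.IsIrreducible)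
    (hχ : ∀ y : Kˣ, χ y = 1 → y = 1) (k : ℕ) (hk : ∀ y : Kˣ, y ^ k = 1 → y = 1)
    (τ : K × (Fin n → ZMod 29) → (W →ₗ[ℂ] W)) (hadd : ∀ a b, τ (a + b) = τ a * τ b)
    (hcomm : ∀ f ∈ FF χ n, ∀ p, ρ f * τ p = τ p * ρ f)
    (hconj : ∀ y p, ρ (iota χ n y) * τ p = τ (act χ k y p) * ρ (iota χ n y))
    (κ : AddChar (K × (Fin n → ZMod 29)) ℂ) (hne : proj τ κ ≠ 0) (hκ : κ ≠ 0) :
    Block ρ (FF χ n) (iota χ n) (proj τ κ) ∧
    ∀ g p, ρ g = τ p → ρ.character g ≠ 0 := by
  have hB : Block ρ (FF χ n) (iota χ n) (proj τ κ) := by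
    refine ⟨inferInstance, ?_, proj_idem hadd κ, hne, ?_, ?_⟩
    · intro g
      exact ⟨_, el_mem g.a g.z g.c, g.y, eq_mul_iota g⟩
    · intro f hf
      exact comm_proj _ (hcomm f hf) κ
    · intro y hy
      obtain ⟨p, hp⟩ := act_moves hχ k hk κ hκ y hy
      exact proj_orth hadd _ κ p (act χ k y p) (hconj y p) hp
  refine ⟨hB, ?_⟩
  intro g p hgp
  rw [hB.character_eq hirr g]
  have h1 : ∀ y : Kˣ, LinearMap.trace ℂ W (ρ ((iota χ n y)⁻¹ * g * iota χ n y) * proj τ κ) =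
      κ (act χ k y⁻¹ p) * LinearMap.trace ℂ W (proj τ κ) := by
    intro y
    have h2 : ρ ((iota χ n y)⁻¹ * g * iota χ n y) = τ (act χ k y⁻¹ p) := by
      have h3 := hconj y⁻¹ p
      rw [map_inv] at h3
      rw [map_mul, map_mul, hgp, h3, mul_assoc, ← map_mul, inv_mul_cancel, map_one, mul_one]
    rw [h2, mul_proj hadd, map_smul, smul_eq_mul]
  rw [Finset.sum_congr rfl fun y _ => h1 y, ← Finset.sum_mul]
  refine mul_ne_zero ?_ (trace_idem_ne_zero (proj_idem hadd κ) hne)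
  have h5 := Equiv.sum_comp (Equiv.inv Kˣ) (fun y => κ (act χ k y p))
  simp only [Equiv.inv_apply] at h5
  rw [h5]
  exact sum_act_ne_zero hK k κ p

/-- If the centre of `P` acts trivially, the character does not vanish on `F`. -/
theorem character_ne_zero_of_trivial (hK : Fintype.card K = 8) (hirr : ρ.IsIrreducible)
    (hχ : ∀ y : Kˣ, χ y = 1 → y = 1) (hz : ∀ z : K, ρ (el χ 0 z 0) = 1) (g : GG χ n)
    (hg : g ∈ FF χ n) : ρ.character g ≠ 0 := by
  classical
  let τ : K × (Fin n → ZMod 29) → (W →ₗ[ℂ] W) := fun p => ρ (el χ p.1 0 p.2)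
  have hρ : ∀ a z c, ρ (el χ a z c) = τ (a, c) := by
    intro a z c
    have h1 : el χ a z c = el χ a 0 c * el χ 0 z 0 := by rw [el_mul]; simp
    rw [h1, map_mul, hz, mul_one]
  have hadd : ∀ a b, τ (a + b) = τ a * τ b := by
    rintro ⟨a, c⟩ ⟨a', c'⟩
    change _ = ρ (el χ a 0 c) * ρ (el χ a' 0 c')
    rw [← map_mul, el_mul, hρ]
    rfl
  have h0 : τ 0 = 1 := by
    change ρ (el χ 0 0 0) = 1
    have : (el χ 0 0 0 : GG χ n) = 1 := rfl
    rw [this, map_one]
  have hg' := eq_el_of_mem hg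
  by_cases hall : ∀ p, τ p = 1
  · rw [hg', character, hρ, hall]
    haveI := nontrivial_of_irreducible ρ hirr
    rw [LinearMap.trace_one]
    have := Module.finrank_pos (R := ℂ) (M := W)
    exact_mod_cast this.ne'
  · push Not at hall
    obtain ⟨p, hp⟩ := hall
    obtain ⟨κ, hκ1, hκ2⟩ := exists_proj_ne h0 hadd p hp
    have hκ : κ ≠ 0 := by
      rintro rfl
      exact hκ2 (by simp)
    refine (character_of_block ρ hK hirr hχ 1 (by simp) τ hadd ?_ ?_ κ hκ1 hκ).2 g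
      (g.a, g.c) ?_
    · intro f hf q
      rw [eq_el_of_mem hf, hρ, ← hadd, ← hadd, add_comm]
    · intro y q
      change ρ (iota χ n y) * ρ (el χ q.1 0 q.2) = τ _ * ρ (iota χ n y)
      rw [← map_mul, show iota χ n y * el χ q.1 0 q.2 =
        (iota χ n y * el χ q.1 0 q.2 * (iota χ n y)⁻¹) * iota χ n y by group, conj_iota, map_mul,
        hρ]
      simp [act]
    · conv_lhs => rw [hg']
      rw [hρ]

/-- If the centre of `P` acts nontrivially, the character does not vanish on `F`. -/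
theorem character_ne_zero_of_nontrivial (hK : Fintype.card K = 8) (hirr : ρ.IsIrreducible)
    (hχ : ∀ y : Kˣ, χ y = 1 → y = 1) (z₀ : K) (hz : ρ (el χ 0 z₀ 0) ≠ 1) (g : GG χ n)
    (hg : g ∈ FF χ n) : ρ.character g ≠ 0 := by
  classical
  have h2 : (2 : K) = 0 := two_eq_zero
  let τ : K × (Fin n → ZMod 29) → (W →ₗ[ℂ] W) := fun p => ρ (el χ 0 p.1 p.2)
  have hadd : ∀ a b, τ (a + b) = τ a * τ b := by
    rintro ⟨a, c⟩ ⟨a', c'⟩
    change _ = ρ (el χ 0 a c) * ρ (el χ 0 a' c')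
    rw [← map_mul, el_mul]
    simp [τ]
  have h0 : τ 0 = 1 := by
    change ρ (el χ 0 0 0) = 1
    have : (el χ 0 0 0 : GG χ n) = 1 := rfl
    rw [this, map_one]
  obtain ⟨κ, hκ1, hκ2⟩ := exists_proj_ne h0 hadd (z₀, 0) hz
  have hκ : κ ≠ 0 := by
    rintro rfl
    exact hκ2 (by simp)
  have h3 : ∀ y : Kˣ, y ^ 3 = 1 → y = 1 := by
    intro y hy
    have h7 : y ^ 7 = 1 := by
      have := pow_card_eq_one (x := y)
      rwa [Fintype.card_units, hK] at this
    have h8 : y ^ 7 = (y ^ 3) ^ 2 * y := by rw [← pow_mul, ← pow_succ]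
    rw [h7, hy, one_pow, one_mul] at h8
    exact h8.symm
  have hcomm : ∀ f ∈ FF χ n, ∀ p, ρ f * τ p = τ p * ρ f := by
    intro f hf p
    rw [eq_el_of_mem hf]
    change ρ (el χ _ _ _) * ρ (el χ _ _ _) = ρ (el χ _ _ _) * ρ (el χ _ _ _)
    rw [← map_mul, ← map_mul, el_mul, el_mul]
    congr 1
    ext1
    · rfl
    · simp
    · simp [add_comm]
    · simp [add_comm]
  have hconj : ∀ y p, ρ (iota χ n y) * τ p = τ (act χ 3 y p) * ρ (iota χ n y) := by
    intro y q
    change ρ (iota χ n y) * ρ (el χ 0 q.1 q.2) = ρ (el χ _ _ _) * ρ (iota χ n y)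
    rw [← map_mul, show iota χ n y * el χ 0 q.1 q.2 =
        (iota χ n y * el χ 0 q.1 q.2 * (iota χ n y)⁻¹) * iota χ n y by group, conj_iota, map_mul]
    simp [act]
  obtain ⟨hB, hform⟩ := character_of_block ρ hK hirr hχ 3 h3 τ hadd hcomm hconj κ hκ1 hκ
  by_cases ha : g.a = 0
  · refine hform g (g.z, g.c) ?_
    conv_lhs => rw [eq_el_of_mem hg, ha]
  -- the character of the centre of `P`
  let lam : AddChar K ℂ :=
    { toFun := fun z => κ (z, 0)
      map_zero_eq_one' := κ.map_zero_eq_one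
      map_add_eq_mul' := by
        intro a b
        rw [← κ.map_add_eq_mul]
        simp }
  have hlam : ∀ z, lam z = κ (z, 0) := fun z => rfl
  have hl : lam ≠ 0 := by
    intro h
    apply hκ2
    rw [← hlam, h]
    simp
  obtain ⟨u₀, hu1, hu2⟩ := exists_unique_unit hK lam hl
  set B := proj τ κ with hBdef
  -- the commutation rule
  have hswap : ∀ a z c b w d, ρ (el χ b w d) * ρ (el χ a z c) * B =
      lam (a * b ^ 2 + a ^ 2 * b) • (ρ (el χ a z c) * ρ (el χ b w d) * B) := by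
    intro a z c b w d
    have h5 : el χ b w d * el χ a z c = el χ a z c * el χ b w d *
        el χ 0 (a * b ^ 2 + a ^ 2 * b) 0 := by
      rw [el_mul, el_mul, el_mul]
      ext1
      · rfl
      · simp [add_comm]
      · simp only [el_z]
        linear_combination (-(a * b ^ 2)) * h2
      · simp [add_comm]
    rw [← map_mul, h5, map_mul, map_mul, mul_assoc (ρ (el χ a z c) * ρ (el χ b w d))]
    have h6 : ρ (el χ 0 (a * b ^ 2 + a ^ 2 * b) 0) * B = lam (a * b ^ 2 + a ^ 2 * b) • B :=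
      mul_proj hadd κ (a * b ^ 2 + a ^ 2 * b, 0)
    rw [h6, mul_smul_comm]
  rw [hB.character_eq hirr g]
  let a₀ : Kˣ := Units.mk0 g.a ha
  have hterm : ∀ y : Kˣ, (iota χ n y)⁻¹ * g * iota χ n y =
      el χ ((y⁻¹ : Kˣ) * g.a) (((y⁻¹ : Kˣ) : K) ^ 3 * g.z) ((χ y⁻¹ : ZMod 29) • g.c) := by
    intro y
    have h5 := conj_iota (χ := χ) (n := n) y⁻¹ g.a g.z g.c
    rw [← eq_el_of_mem hg, map_inv, inv_inv] at h5
    rw [h5]
  rw [Finset.sum_eq_single (a₀ * u₀⁻¹)]
  · -- the contributing term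
    rw [hterm]
    have hu : (((a₀ * u₀⁻¹)⁻¹ : Kˣ) : K) * g.a = u₀ := by
      have : (a₀ : K) = g.a := rfl
      rw [← this, ← Units.val_mul]
      congr 1
      group
    rw [hu]
    set z' := (((a₀ * u₀⁻¹)⁻¹ : Kˣ) : K) ^ 3 * g.z
    set c' := (χ (a₀ * u₀⁻¹)⁻¹ : ZMod 29) • g.c
    have hC : ∀ f ∈ FF χ n, ρ f * (ρ (el χ u₀ z' c') * B) = (ρ (el χ u₀ z' c') * B) * ρ f := by
      intro f hf
      have h6 := hswap u₀ z' c' f.a f.z f.c
      have h7 : lam ((u₀ : K) * f.a ^ 2 + (u₀ : K) ^ 2 * f.a) = 1 := by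
        rw [← fchar_apply, hu1]
        simp
      rw [h7, one_smul, ← eq_el_of_mem hf] at h6
      rw [← mul_assoc, h6, mul_assoc, mul_assoc, hB.comm f hf]
    obtain ⟨μ, hμ⟩ := hB.scalar hirr _ hC (by rw [mul_assoc, hB.idem])
    rw [hμ, map_smul, smul_eq_mul]
    refine mul_ne_zero ?_ (trace_idem_ne_zero hB.idem hB.ne)
    rintro rfl
    rw [zero_smul] at hμ
    apply hB.ne
    calc B = ρ (el χ u₀ z' c')⁻¹ * (ρ (el χ u₀ z' c') * B) := by
          rw [← mul_assoc, ← map_mul, inv_mul_cancel, map_one, one_mul]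
      _ = 0 := by rw [hμ, mul_zero]
  · intro y _ hy
    rw [hterm]
    have hne : y⁻¹ * a₀ ≠ u₀ := by
      intro h
      apply hy
      rw [← h]
      group
    have hv : (((y⁻¹ : Kˣ) : K) * g.a) = ((y⁻¹ * a₀ : Kˣ) : K) := rfl
    rw [hv]
    set u := y⁻¹ * a₀
    set z' := (((y⁻¹ : Kˣ) : K) ^ 3 * g.z)
    set c' := (χ y⁻¹ : ZMod 29) • g.c
    obtain ⟨b, hb⟩ : ∃ b, fchar lam u b ≠ 1 := by
      by_contra hcon
      push Not at hcon
      apply hu2 u hne
      ext b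
      rw [hcon b]
      simp
    rw [fchar_apply] at hb
    have h6 := hswap u z' c' b 0 0
    have hf : el χ b 0 0 ∈ FF χ n := el_mem _ _ _
    have h7 : LinearMap.trace ℂ W (ρ (el χ u z' c') * B) =
        LinearMap.trace ℂ W (ρ (el χ b 0 0)⁻¹ * (ρ (el χ b 0 0) * ρ (el χ u z' c') * B)) := by
      rw [mul_assoc, ← mul_assoc (ρ (el χ b 0 0)⁻¹), ← map_mul, inv_mul_cancel, map_one, one_mul]
    have h8 : LinearMap.trace ℂ W (ρ (el χ b 0 0)⁻¹ * (ρ (el χ u z' c') * ρ (el χ b 0 0) * B)) =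
        LinearMap.trace ℂ W (ρ (el χ u z' c') * B) := by
      rw [mul_assoc (ρ (el χ u z' c')), hB.comm _ hf, ← mul_assoc (ρ (el χ u z' c')),
        LinearMap.trace_mul_comm, mul_assoc, ← map_mul, mul_inv_cancel, map_one, mul_one]
    rw [h6, mul_smul_comm, map_smul, h8, smul_eq_mul] at h7
    have h9 : (1 - lam ((u : K) * b ^ 2 + (u : K) ^ 2 * b)) *
        LinearMap.trace ℂ W (ρ (el χ u z' c') * B) = 0 := by
      linear_combination h7
    rcases mul_eq_zero.1 h9 with h10 | h10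
    · exact absurd (by linear_combination -h10) hb
    · exact h10
  · simp

/-- Irreducible characters of `G` do not vanish on `F`. -/
theorem character_ne_zero (hK : Fintype.card K = 8) (hirr : ρ.IsIrreducible)
    (hχ : ∀ y : Kˣ, χ y = 1 → y = 1) (g : GG χ n) (hg : g ∈ FF χ n) : ρ.character g ≠ 0 := by
  by_cases hz : ∀ z : K, ρ (el χ 0 z 0) = 1
  · exact character_ne_zero_of_trivial ρ hK hirr hχ hz g hg
  · push Not at hz
    obtain ⟨z₀, hz₀⟩ := hz
    exact character_ne_zero_of_nontrivial ρ hK hirr hχ z₀ hz₀ g hg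

end Main

end Pool.Agent.H51d
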