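import Pool.Agent.H51d.Defs
import Pool.Agent.H51d.NonVan

/-!
The groups `G = (P × (ℤ/29)^n) ⋊ C₇` have `m(G) ≤ 6`.
-/

namespace Pool.Agent.H51d

open Representation GG

section

variable {K : Type} [Field K] [Fintype K] [DecidableEq K] [CharP K 2]
  (χ : Kˣ →* (ZMod 29)ˣ) (n : ℕ)

theorem exists_hom (hK : Fintype.card K = 8) :
    ∃ χ : Kˣ →* (ZMod 29)ˣ, ∀ y : Kˣ, χ y = 1 → y = 1 := by
  obtain ⟨g, hg⟩ := IsCyclic.exists_generator (α := Kˣ)
  have h1 : orderOf g = 7 := by
    rw [orderOf_eq_card_of_forall_mem_zpowers hg, Nat.card_eq_fintype_card, Fintype.card_units, hK]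
  let g' : (ZMod 29)ˣ := ⟨16, 20, by decide, by decide⟩
  have h2 : orderOf g' = 7 := by
    haveI : Fact (Nat.Prime 7) := ⟨by norm_num⟩
    refine orderOf_eq_prime ?_ ?_
    · ext
      rw [Units.val_pow_eq_pow_val]
      change (16 : ZMod 29) ^ 7 = 1
      decide
    · intro h
      have := congrArg Units.val h
      exact absurd this (by change (16 : ZMod 29) ≠ 1; decide)
  have h3 : orderOf g' ∣ orderOf g := by rw [h1, h2]
  refine ⟨monoidHomOfForallMemZpowers hg h3, ?_⟩
  intro y hy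
  obtain ⟨k, rfl⟩ := Subgroup.mem_zpowers_iff.1 (hg y)
  rw [map_zpow, monoidHomOfForallMemZpowers_apply_gen, ← orderOf_dvd_iff_zpow_eq_one, h2] at hy
  rw [← orderOf_dvd_iff_zpow_eq_one, h1]
  exact hy

/-- The group as a set. -/
def equivProd : GG χ n ≃ Kˣ × K × K × (Fin n → ZMod 29) where
  toFun g := (g.y, g.a, g.z, g.c)
  invFun p := ⟨p.1, p.2.1, p.2.2.1, p.2.2.2⟩
  left_inv _ := rfl
  right_inv _ := rfl

instance : Finite (GG χ n) := Finite.of_equiv _ (equivProd χ n).symm

theorem card_gt : n < Nat.card (GG χ n) := by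
  have h1 : Nat.card (GG χ n) = Nat.card Kˣ * (Nat.card K * (Nat.card K * 29 ^ n)) := by
    rw [Nat.card_congr (equivProd χ n)]
    simp [Nat.card_prod]
  rw [h1]
  have h2 : n < 29 ^ n := Nat.lt_pow_self (by norm_num)
  have h3 : 0 < Nat.card Kˣ := Nat.card_pos
  have h4 : 0 < Nat.card K := Nat.card_pos
  calc n < 29 ^ n := h2
    _ ≤ Nat.card K * 29 ^ n := Nat.le_mul_of_pos_left _ h4
    _ ≤ Nat.card K * (Nat.card K * 29 ^ n) := Nat.le_mul_of_pos_left _ h4
    _ ≤ _ := Nat.le_mul_of_pos_left _ h3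

/-- The projection of `F` with central kernel. -/
def projF : FF χ n →* Multiplicative (K × (Fin n → ZMod 29)) where
  toFun g := Multiplicative.ofAdd (g.1.a, g.1.c)
  map_one' := rfl
  map_mul' g h := by
    have hg : g.1.y = 1 := g.2
    rw [← ofAdd_add]
    congr 1
    ext1
    · simp [hg]
    · simp [hg]

instance : Group.IsNilpotent (FF χ n) := by
  refine Subgroup.isNilpotent_of_ker_le_center (projF χ n) ?_
  intro g hg
  have hg1 : g.1.a = 0 := congrArg (fun p => (Multiplicative.toAdd p).1) hg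
  have hg2 : g.1.c = 0 := congrArg (fun p => (Multiplicative.toAdd p).2) hg
  rw [Subgroup.mem_center_iff]
  intro h
  have hgy : g.1.y = 1 := g.2
  have hhy : h.1.y = 1 := h.2
  apply Subtype.ext
  ext1
  · simp [hgy, hhy]
  · simp [hgy, hhy, hg1]
  · simp [hgy, hhy, hg1, add_comm]
  · simp [hgy, hhy, hg2]

theorem isSolvable : Group.IsSolvable (GG χ n) :=
  Group.isSolvable_of_ker_le_range (FF χ n).subtype (prY : GG χ n →* Kˣ) (by
    rw [Subgroup.range_subtype]
    exact le_refl _)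

theorem nonabelian (hK : Fintype.card K = 8) :
    ∃ a ∈ fitting (GG χ n), ∃ b ∈ fitting (GG χ n), a * b ≠ b * a := by
  have hle : FF χ n ≤ fitting (GG χ n) := le_sSup ⟨inferInstance, inferInstance⟩
  obtain ⟨b, hb⟩ : ∃ b : K, b ∉ ({0, 1} : Finset K) := by
    by_contra hcon
    push Not at hcon
    have h1 : Fintype.card K ≤ ({0, 1} : Finset K).card := by
      rw [← Finset.card_univ]
      exact Finset.card_le_card fun x _ => hcon x
    have h2 : ({0, 1} : Finset K).card ≤ 2 := Finset.card_le_two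
    omega
  refine ⟨el χ 1 0 0, hle (el_mem _ _ _), el χ b 0 0, hle (el_mem _ _ _), ?_⟩
  rw [el_mul, el_mul]
  intro h
  have h1 := congrArg GG.z h
  simp only [el_z] at h1
  apply hb
  have h2 : b * (b - 1) = 0 := by linear_combination h1
  rcases mul_eq_zero.1 h2 with h3 | h3
  · simp [h3]
  · have : b = 1 := by linear_combination h3
    simp [this]

theorem maxZeros_le_six (hK : Fintype.card K = 8) (hχ : ∀ y : Kˣ, χ y = 1 → y = 1) :
    maxZeros (GG χ n) ≤ 6 := by
  have h3 : ∀ y : Kˣ, y ^ 3 = 1 → y = 1 := by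
    intro y hy
    have h7 : y ^ 7 = 1 := by
      have := pow_card_eq_one (x := y)
      rwa [Fintype.card_units, hK] at this
    have h8 : y ^ 7 = (y ^ 3) ^ 2 * y := by rw [← pow_mul, ← pow_succ]
    rw [h7, hy, one_pow, one_mul] at h8
    exact h8.symm
  apply maxZeros_le
  rintro f ⟨V, _, _, _, ρ, hirr, rfl⟩
  have hsub : {C : ConjClasses (GG χ n) | ∀ g ∈ C.carrier, ρ.character g = 0} ⊆
      (fun y : Kˣ => ConjClasses.mk (iota χ n y)) '' {y : Kˣ | y ≠ 1} := by
    intro C hC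
    obtain ⟨g, rfl⟩ := ConjClasses.exists_rep C
    have hg : g.y ≠ 1 := by
      intro h
      exact character_ne_zero ρ hK hirr hχ g h (hC g ConjClasses.mem_carrier_mk)
    exact ⟨g.y, hg, ConjClasses.mk_eq_mk_iff_isConj.2 (conj_of_y_ne h3 hχ g hg)⟩
  calc zeroCount (GG χ n) ρ.character ≤
        ((fun y : Kˣ => ConjClasses.mk (iota χ n y)) '' {y : Kˣ | y ≠ 1}).ncard :=
        Set.ncard_le_ncard hsub (Set.toFinite _)
    _ ≤ {y : Kˣ | y ≠ 1}.ncard := Set.ncard_image_le (Set.toFinite _)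
    _ = 6 := by
        have h1 : {y : Kˣ | y ≠ 1} = ((Finset.univ.erase (1 : Kˣ) : Finset Kˣ) : Set Kˣ) := by
          ext y
          simp
        rw [h1, Set.ncard_coe_finset, Finset.card_erase_of_mem (Finset.mem_univ _),
          Finset.card_univ, Fintype.card_units, hK]

end

/-- The disproof of Q2. -/
theorem q2 (B : ℕ) : ∃ (G : Type) (_ : Group G) (_ : Finite G), Group.IsSolvable G ∧
    (∃ a ∈ fitting G, ∃ b ∈ fitting G, a * b ≠ b * a) ∧ maxZeros G ≤ 6 ∧ B < Nat.card G := by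
  classical
  haveI : Fact (Nat.Prime 2) := ⟨by norm_num⟩
  haveI : Fintype (GaloisField 2 3) := Fintype.ofFinite _
  have hK : Fintype.card (GaloisField 2 3) = 8 := by
    rw [← Nat.card_eq_fintype_card, GaloisField.card 2 3 (by norm_num)]
    norm_num
  obtain ⟨χ, hχ⟩ := exists_hom hK
  exact ⟨GG χ B, inferInstance, inferInstance, isSolvable χ B, nonabelian χ B hK,
    maxZeros_le_six χ B hK hχ, card_gt χ B⟩

end Pool.Agent.H51d
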